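import Pool.Agent.H699T.Asm
import Pool.Agent.H699T.Tree921
import Pool.Agent.Acyclic955.Main
import Pool.Agent.Helper648.SZ.Prod

set_option autoImplicit false

namespace Pool.Agent.Results.MP_53fb6e_gt.ThreeClasses

/-- The ordered (simplicial) coboundary. A `p`-cochain with integer coefficients on a set `α` of
vertices is an integer valued function of lists of `p + 1` vertices; the coboundary of `φ` at a
list `l` is `∑ j, (-1)^j φ(l with its j-th entry deleted)`. On lists of length one this is the
value of `φ` at the empty list, so the complex is the augmented one. -/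
def cob {α : Type*} (φ : List α → ℤ) (l : List α) : ℤ :=
  ∑ j ∈ Finset.range l.length, (-1) ^ j * φ (l.eraseIdx j)

/-- `X` is acyclic: it is nonempty and its reduced Čech cohomology groups with integer
coefficients vanish in all degrees `p ≥ 0`. In words: for every open cover `U` of `X` and every
`p`-cocycle `c` of the nerve of `U` (lists `l` of `p + 1` indices such that the sets `U i`,
`i ∈ l`, have a common point; in degree `0` the reduced, i.e. augmented, complex is used) there are
an open cover `V` refining `U`, with refinement map `r`, such that the pulled back cochain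
`l ↦ c (l.map r)` is the coboundary of a `(p - 1)`-cochain `b` of the nerve of `V`; i.e. every
class dies in the direct limit over all open covers. -/
def CechAcyclic (X : Type) [TopologicalSpace X] : Prop :=
  Nonempty X ∧
  ∀ (p : ℕ) (ι : Type) (U : ι → Set X), (∀ i, IsOpen (U i)) → (⋃ i, U i) = Set.univ →
    ∀ c : List ι → ℤ,
      (∀ l : List ι, l.length = p + 2 → (⋂ i ∈ l, U i).Nonempty → cob c l = 0) →
      ∃ (κ : Type) (V : κ → Set X) (r : κ → ι),
        (∀ k, IsOpen (V k)) ∧ (⋃ k, V k) = Set.univ ∧ (∀ k, V k ⊆ U (r k)) ∧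
        ∃ b : List κ → ℤ, ∀ l : List κ, l.length = p + 1 → (⋂ k ∈ l, V k).Nonempty →
          c (l.map r) = cob b l

/-- `T` is a finite tree: a compact connected Hausdorff space which is the union of finitely many
arcs (injective continuous images of `[0,1]`), any two of which meet at most in end points of both
(so `T` is a finite connected graph), and which contains no simple closed curve (there is no
injective continuous map of the circle into `T`). -/
def IsFiniteTree (T : Type) [TopologicalSpace T] : Prop :=
  CompactSpace T ∧ T2Space T ∧ ConnectedSpace T ∧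
  (∃ (ι : Type) (_ : Finite ι) (e : ι → unitInterval → T),
    (∀ i, Continuous (e i) ∧ Function.Injective (e i)) ∧
    (∀ p : T, ∃ i s, e i s = p) ∧
    (∀ i j, i ≠ j → ∀ s t, e i s = e j t → (s = 0 ∨ s = 1) ∧ (t = 0 ∨ t = 1))) ∧
  (∀ c : Circle → T, Continuous c → ¬ Function.Injective c)

/-- `X` is tree-like: for every `ε > 0` there is a mapping of `X` onto a finite tree all of whose
fibres have diameter less than `ε`. -/
def TreeLike (X : Type) [MetricSpace X] : Prop :=
  ∀ ε : ℝ, 0 < ε → ∃ (T : Type) (_ : TopologicalSpace T) (g : X → T), IsFiniteTree T ∧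
    Continuous g ∧ Function.Surjective g ∧ ∀ t : T, Metric.diam (g ⁻¹' {t}) < ε

/-- `X` is arc-like: for every `ε > 0` there is a mapping of `X` onto `[0,1]` all of whose fibres
have diameter less than `ε`. -/
def ArcLike (X : Type) [MetricSpace X] : Prop :=
  ∀ ε : ℝ, 0 < ε → ∃ g : X → ℝ, Continuous g ∧ Set.range g = Set.Icc 0 1 ∧
    ∀ t : ℝ, Metric.diam (g ⁻¹' {t}) < ε

/-- `f` is a confluent mapping of `X` onto `Y`: it is continuous, surjective, and for every
subcontinuum `K` of `Y` every component of `f⁻¹(K)` is mapped onto `K`. -/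
def ConfluentOnto {X Y : Type} [MetricSpace X] [MetricSpace Y] (f : X → Y) : Prop :=
  Continuous f ∧ Function.Surjective f ∧
    ∀ K : Set Y, IsClosed K → IsConnected K →
      ∀ x ∈ f ⁻¹' K, f '' connectedComponentIn (f ⁻¹' K) x = K

theorem treeLike_part :
    ∃ (X Y : Type) (_ : MetricSpace X) (_ : CompactSpace X) (_ : ConnectedSpace X)
      (_ : MetricSpace Y) (_ : CompactSpace Y) (_ : ConnectedSpace Y) (f : X → Y),
      TreeLike X ∧ ConfluentOnto f ∧ ¬ ConfluentOnto (Prod.map f f) := by
  let hX : CompactSpace H699T.XX := inferInstance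
  let hY : CompactSpace H699T.YY := inferInstance
  let cX : ConnectedSpace H699T.XX := inferInstance
  let cY : ConnectedSpace H699T.YY := inferInstance
  refine ⟨H699T.XX, H699T.YY, H699T.mX, hX, cX, H699T.mY, hY, cY, H699T.ff, ?_, ?_, ?_⟩
  · intro ε hε
    let _ := H699T.mX
    exact H699T.tree_maps (E := H699T.XX) (Homeomorph.refl H699T.XX)
      (fun n hn => H699T.isFiniteTree_of
        (H699T.isConnected_SS n (H699T.tau_pos n) (H699T.tau_lt_one hn))
        (H699T.arcs_SS n (H699T.tau_pos n) (H699T.tau_lt_one hn))) hε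
  · exact ⟨H699T.continuous_ff, H699T.surjective_ff, H699T.conf_ff⟩
  · rintro ⟨-, -, h⟩
    exact H699T.nonconf_ff (h H699T.LY H699T.isClosed_LY H699T.isConnected_LY H699T.pp
      H699T.pp_mem)

/-- The answer to the question for each of the three classes. Acyclic continua: no, there is a
confluent mapping `f` of an acyclic continuum `X` onto a continuum `Y` such that `f × f` is not
confluent. Tree-like continua: no, there is a confluent mapping `f` of a tree-like continuum `X`
onto a continuum `Y` such that `f × f` is not confluent. Arc-like continua: yes, for every arc-like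
continuum `X` and every confluent mapping `f` of `X` onto a continuum `Y` the mapping `f × f` of
`X × X` onto `Y × Y` is confluent. -/
theorem result :
    (∃ (X Y : Type) (_ : MetricSpace X) (_ : CompactSpace X) (_ : ConnectedSpace X)
      (_ : MetricSpace Y) (_ : CompactSpace Y) (_ : ConnectedSpace Y) (f : X → Y),
      CechAcyclic X ∧ ConfluentOnto f ∧ ¬ ConfluentOnto (Prod.map f f)) ∧
    (∃ (X Y : Type) (_ : MetricSpace X) (_ : CompactSpace X) (_ : ConnectedSpace X)
      (_ : MetricSpace Y) (_ : CompactSpace Y) (_ : ConnectedSpace Y) (f : X → Y),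
      TreeLike X ∧ ConfluentOnto f ∧ ¬ ConfluentOnto (Prod.map f f)) ∧
    (∀ (X Y : Type) [MetricSpace X] [CompactSpace X] [ConnectedSpace X]
      [MetricSpace Y] [CompactSpace Y] [ConnectedSpace Y] (f : X → Y),
      ArcLike X → ConfluentOnto f → ConfluentOnto (Prod.map f f)) := by
  refine ⟨?_, treeLike_part, ?_⟩
  · obtain ⟨X, Y, iX, iY, hX, hXc, hY, hYc, hac, f, hf, hs, hcf, hn⟩ :=
      Pool.Agent.Acyclic955.result
    refine ⟨X, Y, iX, hX, hXc, iY, hY, hYc, f, hac, ⟨hf, hs, hcf⟩, ?_⟩
    rintro ⟨-, -, h⟩
    exact hn h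
  · intro X Y _ _ _ _ _ _ f hX hf
    obtain ⟨hfc, hfs, hfk⟩ := hf
    have hS : Pool.Agent.Helper739.CT.SpanZero X := by
      apply Pool.Agent.Helper648.SZ.spanZero_of_arcLike
      intro ε hε
      obtain ⟨g, hg, -, hg'⟩ := hX ε hε
      exact ⟨g, hg, hg'⟩
    have hC : Pool.Agent.Helper648.SZ.Confl f := fun Q hQ x hx => hfk Q hQ.1.isClosed hQ.2 x hx
    refine ⟨hfc.prodMap hfc, hfs.prodMap hfs, ?_⟩
    intro L hL hLc p hp
    exact Pool.Agent.Helper648.SZ.prod_confl_of_spanZero hS hS f hfc hfs hC f hfc hfs hC L
      ⟨hL.isCompact, hLc⟩ p hp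

end Pool.Agent.Results.MP_53fb6e_gt.ThreeClasses
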